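import Pool.Agent.V11178.EH

/-!
# `τ_±^(ℤ_p, 3)`: the largest sets without signed zero-sums of three distinct elements
-/

set_option autoImplicit false

open Finset
open scoped Pointwise

namespace Pool.Agent.Results.MP_6ea067_co.PrimeValues

/-- The restricted signed `h`-fold sumset: all sums `∑ ε_b b` over the `h`-element subsets of `A`,
with `ε_b ∈ {1, -1}`. -/
def restrictedSigned {G : Type*} [AddCommGroup G] (h : ℕ) (A : Finset G) : Set G :=
  {x | ∃ B : Finset G, B ⊆ A ∧ B.card = h ∧
    ∃ e : G → ℤ, (∀ b ∈ B, e b = 1 ∨ e b = -1) ∧ ∑ b ∈ B, e b • b = x}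

/-- The maximum size of a subset `A` of `G` with `0` not in the restricted signed `h`-fold
sumset of `A`. -/
noncomputable def tauHat (G : Type*) [AddCommGroup G] (h : ℕ) : ℕ :=
  sSup {k : ℕ | ∃ A : Finset G, A.card = k ∧ (0 : G) ∉ restrictedSigned h A}

/-- No signed zero-sum of three distinct elements. -/
def Free {G : Type*} [AddCommGroup G] (A : Finset G) : Prop :=
  ∀ a ∈ A, ∀ b ∈ A, ∀ c ∈ A, a ≠ b → a ≠ c → b ≠ c → a + b + c ≠ 0 ∧ a + b ≠ c

theorem free_iff {G : Type*} [AddCommGroup G] (A : Finset G) :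
    (0 : G) ∉ restrictedSigned 3 A ↔ Free A := by
  classical
  constructor
  · intro h a ha b hb c hc hab hac hbc
    have hB : ({a, b, c} : Finset G) ⊆ A := by
      intro x hx
      simp only [mem_insert, mem_singleton] at hx
      rcases hx with rfl | rfl | rfl <;> assumption
    have hcard : ({a, b, c} : Finset G).card = 3 := by
      rw [card_insert_of_notMem (by simp [hab, hac]), card_insert_of_notMem (by simp [hbc]),
        card_singleton]
    have hsum : ∀ e : G → ℤ, ∑ x ∈ ({a, b, c} : Finset G), e x • x = e a • a + (e b • b + e c • c) := by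
      intro e
      rw [sum_insert (by simp [hab, hac]), sum_insert (by simp [hbc]), sum_singleton]
    constructor
    · intro h0
      apply h
      refine ⟨{a, b, c}, hB, hcard, fun _ => 1, fun _ _ => Or.inl rfl, ?_⟩
      rw [hsum]
      simp only [one_smul]
      rw [← add_assoc]; exact h0
    · intro h0
      apply h
      refine ⟨{a, b, c}, hB, hcard, fun x => if x = c then -1 else 1, ?_, ?_⟩
      · intro x _
        by_cases hx : x = c
        · right; simp [hx]
        · left; simp [hx]
      · rw [hsum]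
        simp only [if_neg hac, if_neg hbc, if_true, one_smul, neg_smul]
        rw [← add_assoc, h0]
        exact add_neg_cancel c
  · rintro h ⟨B, hB, hcard, e, he, hsum⟩
    obtain ⟨a, b, c, hab, hac, hbc, rfl⟩ := card_eq_three.mp hcard
    rw [sum_insert (by simp [hab, hac]), sum_insert (by simp [hbc]), sum_singleton] at hsum
    have ma : a ∈ A := hB (by simp)
    have mb : b ∈ A := hB (by simp)
    have mc : c ∈ A := hB (by simp)
    have k1 := h a ma b mb c mc hab hac hbc
    have k2 := h a ma c mc b mb hac hab hbc.symm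
    have k3 := h b mb c mc a ma hbc hab.symm hac.symm
    rcases he a (by simp) with ea | ea <;> rcases he b (by simp) with eb | eb <;>
      rcases he c (by simp) with ec | ec <;> rw [ea, eb, ec] at hsum <;>
      simp only [one_smul, neg_smul] at hsum
    · exact k1.1 (by rw [add_assoc]; exact hsum)
    · exact k1.2 (by
        have : a + b - c = 0 := by rw [← hsum]; abel
        exact sub_eq_zero.mp this)
    · exact k2.2 (by
        have : a + c - b = 0 := by rw [← hsum]; abel
        exact sub_eq_zero.mp this)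
    · exact k3.2 (by
        have : b + c - a = 0 := by rw [← neg_eq_zero, ← hsum]; abel
        exact sub_eq_zero.mp this)
    · exact k3.2 (by
        have : b + c - a = 0 := by rw [← hsum]; abel
        exact sub_eq_zero.mp this)
    · exact k2.2 (by
        have : a + c - b = 0 := by rw [← neg_eq_zero, ← hsum]; abel
        exact sub_eq_zero.mp this)
    · exact k1.2 (by
        have : a + b - c = 0 := by rw [← neg_eq_zero, ← hsum]; abel
        exact sub_eq_zero.mp this)
    · exact k1.1 (by
        have : a + b + c = 0 := by rw [← neg_eq_zero, ← hsum]; abel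
        exact this)

section upper

variable {p : ℕ} [hp : Fact p.Prime]

theorem two_ne (h : 5 ≤ p) : (2 : ZMod p) ≠ 0 := by
  have : ((2 : ℕ) : ZMod p) ≠ 0 := by
    rw [Ne, ZMod.natCast_eq_zero_iff]
    intro h2
    exact absurd (Nat.le_of_dvd (by norm_num) h2) (by omega)
  exact_mod_cast this

theorem three_ne (h : 5 ≤ p) : (3 : ZMod p) ≠ 0 := by
  have : ((3 : ℕ) : ZMod p) ≠ 0 := by
    rw [Ne, ZMod.natCast_eq_zero_iff]
    intro h2
    exact absurd (Nat.le_of_dvd (by norm_num) h2) (by omega)
  exact_mod_cast this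

theorem rep {A : Finset (ZMod p)} (hA : Free A) (h0 : (0 : ZMod p) ∉ A)
    {x y z : ZMod p} (hx : x ∈ A ∪ -A) (hy : y ∈ A ∪ -A) (hz : z ∈ A ∪ -A) (h : x + y = z) :
    x = y ∨ y = 2 * z ∨ x = 2 * z := by
  have hB0 : ∀ w ∈ A ∪ -A, w ≠ 0 := by
    rintro w hw rfl
    rw [mem_union, mem_neg', neg_zero] at hw
    tauto
  have hx0 := hB0 x hx
  have hy0 := hB0 y hy
  have hz0 := hB0 z hz
  by_contra hcon
  push Not at hcon
  obtain ⟨c1, c2, c3⟩ := hcon
  -- pairwise not equal up to sign
  have n1 : x ≠ -y := fun h1 => hz0 (by rw [← h, h1]; ring)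
  have n2 : x ≠ z := fun h1 => hy0 (by
    have : y = z - x := by rw [← h]; ring
    rw [this, h1]; ring)
  have n3 : y ≠ z := fun h1 => hx0 (by
    have : x = z - y := by rw [← h]; ring
    rw [this, h1]; ring)
  have n4 : x ≠ -z := fun h1 => c2 (by
    have : y = z - x := by rw [← h]; ring
    rw [this, h1]; ring)
  have n5 : y ≠ -z := fun h1 => c3 (by
    have : x = z - y := by rw [← h]; ring
    rw [this, h1]; ring)
  have key : ∀ w ∈ A ∪ -A, ∃ a ∈ A, w = a ∨ w = -a := by
    intro w hw
    rw [mem_union, mem_neg'] at hw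
    rcases hw with hw | hw
    · exact ⟨w, hw, Or.inl rfl⟩
    · exact ⟨-w, hw, Or.inr (by rw [neg_neg])⟩
  obtain ⟨a, ha, ea⟩ := key x hx
  obtain ⟨b, hb, eb⟩ := key y hy
  obtain ⟨c, hc, ec⟩ := key z hz
  have hab : a ≠ b := by
    rintro rfl
    rcases ea with ea | ea <;> rcases eb with eb | eb
    · exact c1 (by rw [ea, eb])
    · exact n1 (by rw [ea, eb, neg_neg])
    · exact n1 (by rw [ea, eb])
    · exact c1 (by rw [ea, eb])
  have hac : a ≠ c := by
    rintro rfl
    rcases ea with ea | ea <;> rcases ec with ec | ec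
    · exact n2 (by rw [ea, ec])
    · exact n4 (by rw [ea, ec, neg_neg])
    · exact n4 (by rw [ea, ec])
    · exact n2 (by rw [ea, ec])
  have hbc : b ≠ c := by
    rintro rfl
    rcases eb with eb | eb <;> rcases ec with ec | ec
    · exact n3 (by rw [eb, ec])
    · exact n5 (by rw [eb, ec, neg_neg])
    · exact n5 (by rw [eb, ec])
    · exact n3 (by rw [eb, ec])
  have k1 := hA a ha b hb c hc hab hac hbc
  have k2 := hA a ha c hc b hb hac hab hbc.symm
  have k3 := hA b hb c hc a ha hbc hab.symm hac.symm
  rcases ea with ea | ea <;> rcases eb with eb | eb <;> rcases ec with ec | ec <;>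
    rw [ea, eb, ec] at h
  · exact k1.2 h
  · exact k1.1 (by linear_combination h)
  · exact k3.2 (by linear_combination -h)
  · exact k2.2 (by linear_combination h)
  · exact k2.2 (by linear_combination -h)
  · exact k3.2 (by linear_combination h)
  · exact k1.1 (by linear_combination -h)
  · exact k1.2 (by linear_combination -h)

theorem card_union_neg (A : Finset (ZMod p)) :
    (A ∪ -A).card + (A ∩ -A).card = 2 * A.card := by
  rw [card_union_add_card_inter, card_neg]
  ring

/-- The bound for free sets not containing zero. -/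
theorem upper_nonzero (h5 : 5 ≤ p) {A : Finset (ZMod p)} (hA : Free A)
    (h0 : (0 : ZMod p) ∉ A) (hne : A.Nonempty) :
    4 * A.card ≤ p + 3 + (A ∩ -A).card ∧ (A ∩ -A = A → 3 * A.card ≤ p + 1) := by
  have h2 := two_ne (p := p) h5
  have h3 := three_ne (p := p) h5
  obtain ⟨B, hB⟩ : ∃ B, B = A ∪ -A := ⟨_, rfl⟩
  have hrep : ∀ x ∈ B, ∀ y ∈ B, ∀ z ∈ B, x + y = z → x = y ∨ y = 2 * z ∨ x = 2 * z := by
    rw [hB]
    exact fun x hx y hy z hz h => rep hA h0 hx hy hz h
  have hB0 : ∀ w ∈ B, w ≠ 0 := by
    rintro w hw rfl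
    rw [hB, mem_union, mem_neg', neg_zero] at hw
    tauto
  have hBneg : ∀ w ∈ B, -w ∈ B := by
    intro w hw
    rw [hB, mem_union, mem_neg'] at hw ⊢
    rw [neg_neg]; tauto
  have hcu := card_union_neg A
  rw [← hB] at hcu
  obtain ⟨a, ha⟩ := hne
  have haB : a ∈ B := by rw [hB]; exact mem_union_left _ ha
  -- the size of `B`
  have hBsize : 2 * B.card ≤ p + 3 := by
    have h1 : (B ∩ B.image (fun x => a - x)).card ≤ 3 := by
      have : B ∩ B.image (fun x => a - x) ⊆ {a / 2, -a, 2 * a} := by
        intro x hx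
        rw [mem_inter, mem_image] at hx
        obtain ⟨hx, y, hy, hxy⟩ := hx
        simp only [mem_insert, mem_singleton]
        rcases hrep x hx y hy a haB (by rw [← hxy]; ring) with h4 | h4 | h4
        · left
          rw [eq_div_iff h2]
          rw [← h4] at hxy
          linear_combination -hxy
        · right; left
          rw [← hxy, h4]; ring
        · right; right; exact h4
      exact (card_le_card this).trans card_le_three
    have h4 := card_union_add_card_inter B (B.image (fun x => a - x))
    rw [card_image_of_injective _ (sub_right_injective)] at h4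
    have h5 := card_le_univ (B ∪ B.image (fun x => a - x))
    rw [ZMod.card] at h5
    omega
  have hB2 : 2 ≤ B.card := by
    have hne : a ≠ -a := by
      intro h
      have : 2 * a = 0 := by linear_combination h
      rcases mul_eq_zero.mp this with h4 | h4
      · exact h2 h4
      · exact hB0 a haB h4
    have : ({a, -a} : Finset (ZMod p)) ⊆ B := by
      intro x hx
      simp only [mem_insert, mem_singleton] at hx
      rcases hx with rfl | rfl
      · exact haB
      · exact hBneg _ haB
    have := card_le_card this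
    rwa [card_pair hne] at this
  -- elements with double in `B`
  obtain ⟨D, hD⟩ : ∃ D, D = B.filter (fun x => 2 * x ∈ B) := ⟨_, rfl⟩
  have hDs : Disjoint D (A ∩ -A) := by
    rw [disjoint_left]
    intro x hx hxs
    rw [hD, mem_filter] at hx
    rw [mem_inter, mem_neg'] at hxs
    obtain ⟨hxA, hxA'⟩ := hxs
    have hx0 := hB0 x hx.1
    have hxx : x ≠ -x := by
      intro h
      have : 2 * x = 0 := by linear_combination h
      rcases mul_eq_zero.mp this with h4 | h4
      · exact h2 h4
      · exact hx0 h4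
    have h2x := hx.2
    rw [hB, mem_union, mem_neg'] at h2x
    rcases h2x with hb | hb
    · have n1 : 2 * x ≠ x := fun h => hx0 (by linear_combination h)
      have n2 : 2 * x ≠ -x := by
        intro h
        have : 3 * x = 0 := by linear_combination h
        rcases mul_eq_zero.mp this with h4 | h4
        · exact h3 h4
        · exact hx0 h4
      exact (hA (-x) hxA' (2 * x) hb x hxA n2.symm hxx.symm n1).2 (by ring)
    · have n1 : -(2 * x) ≠ -x := fun h => hx0 (by linear_combination -h)
      have n2 : -(2 * x) ≠ x := by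
        intro h
        have : 3 * x = 0 := by linear_combination -h
        rcases mul_eq_zero.mp this with h4 | h4
        · exact h3 h4
        · exact hx0 h4
      exact (hA x hxA (-(2 * x)) hb (-x) hxA' n2.symm hxx n1).2 (by ring)
  have hDB : D ⊆ B := by rw [hD]; exact filter_subset _ _
  have hsB : A ∩ -A ⊆ B := by rw [hB]; exact inter_subset_left.trans subset_union_left
  have hDc : D.card + (A ∩ -A).card ≤ B.card := by
    rw [← card_union_of_disjoint hDs]
    exact card_le_card (union_subset hDB hsB)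
  constructor
  · -- Erdős–Heilbronn
    obtain ⟨n, hn⟩ : ∃ n, B.card = n + 2 := ⟨B.card - 2, by omega⟩
    have heh := Pool.Agent.V11178.EH.erdos_heilbronn B n hn (by omega)
    obtain ⟨S, hS⟩ : ∃ S, S = ((B ×ˢ B).filter (fun q => q.1 ≠ q.2)).image
      (fun q => q.1 + q.2) := ⟨_, rfl⟩
    rw [← hS] at heh
    have hdisj : Disjoint S (B \ D) := by
      rw [disjoint_left]
      intro z hz hzC
      rw [mem_sdiff] at hzC
      rw [hS, mem_image] at hz
      obtain ⟨q, hq, hqz⟩ := hz
      rw [mem_filter, mem_product] at hq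
      apply hzC.2
      rw [hD, mem_filter]
      refine ⟨hzC.1, ?_⟩
      rcases hrep q.1 hq.1.1 q.2 hq.1.2 z hzC.1 hqz with h4 | h4 | h4
      · exact absurd h4 hq.2
      · rw [← h4]; exact hq.1.2
      · rw [← h4]; exact hq.1.1
    have h6 := card_union_of_disjoint hdisj
    have h7 := card_le_univ (S ∪ (B \ D))
    rw [ZMod.card, h6, card_sdiff_of_subset hDB] at h7
    have h8 := card_le_card hDB
    omega
  · intro hsym
    have hBA : B = A := by
      rw [hB]
      apply Finset.union_eq_left.mpr
      intro x hx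
      rw [mem_neg'] at hx
      rw [← hsym, mem_inter, mem_neg', neg_neg] at hx
      exact hx.2
    have hDe : D = ∅ := by
      rw [hsym] at hDs
      rw [← hBA] at hDs
      have := disjoint_of_subset_right hDB hDs
      exact disjoint_self.mp this
    have hdisj : Disjoint (A + A) A := by
      rw [disjoint_left]
      intro z hz hzA
      rw [mem_add] at hz
      obtain ⟨x, hx, y, hy, hxy⟩ := hz
      rw [← hBA] at hx hy hzA
      have hDm : ∀ w ∈ B, 2 * w ∉ B := by
        intro w hw h4
        have : w ∈ D := by rw [hD, mem_filter]; exact ⟨hw, h4⟩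
        rw [hDe] at this
        simp at this
      rcases hrep x hx y hy z hzA hxy with h4 | h4 | h4
      · apply hDm x hx
        have : 2 * x = z := by rw [← hxy, ← h4]; ring
        rw [this]; exact hzA
      · exact hDm z hzA (h4 ▸ hy)
      · exact hDm z hzA (h4 ▸ hx)
    have hAne : A.Nonempty := ⟨a, ha⟩
    have hcd := ZMod.cauchy_davenport hp.out hAne hAne
    have h6 := card_union_of_disjoint hdisj
    have h7 := card_le_univ ((A + A) ∪ A)
    rw [ZMod.card, h6] at h7
    have h8 : 0 < A.card := card_pos.mpr hAne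
    have h9 : (A + A).card < p := by omega
    have h10 : A.card + A.card - 1 ≤ (A + A).card := by
      rcases min_le_iff.mp hcd with h11 | h11
      · omega
      · exact h11
    omega

theorem upper (h7 : 7 ≤ p) {A : Finset (ZMod p)} (hA : Free A) : A.card ≤ p / 3 + 1 := by
  rcases A.eq_empty_or_nonempty with rfl | hne
  · simp
  by_cases h0 : (0 : ZMod p) ∈ A
  · -- zero in the set
    obtain ⟨A', hA'⟩ : ∃ A', A' = A.erase 0 := ⟨_, rfl⟩
    have hcard : A'.card + 1 = A.card := by
      rw [hA', card_erase_of_mem h0]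
      have : 0 < A.card := card_pos.mpr hne
      omega
    rcases A'.eq_empty_or_nonempty with he | hne'
    · rw [he] at hcard
      simp at hcard
      omega
    have hfree' : Free A' := by
      intro x hx y hy z hz
      rw [hA'] at hx hy hz
      exact hA x (mem_of_mem_erase hx) y (mem_of_mem_erase hy) z (mem_of_mem_erase hz)
    have h0' : (0 : ZMod p) ∉ A' := by rw [hA']; exact notMem_erase 0 A
    have hs : A' ∩ -A' = ∅ := by
      rw [eq_empty_iff_forall_notMem]
      intro x hx
      rw [mem_inter, mem_neg'] at hx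
      rw [hA', mem_erase, mem_erase] at hx
      have hxx : x ≠ -x := by
        intro h
        have : 2 * x = 0 := by linear_combination h
        rcases mul_eq_zero.mp this with h4 | h4
        · exact two_ne (p := p) (by omega) h4
        · exact hx.1.1 h4
      exact (hA x hx.1.2 (-x) hx.2.2 0 h0 hxx hx.1.1 hx.2.1).2 (by ring)
    have := (upper_nonzero (by omega) hfree' h0' hne').1
    rw [hs, card_empty] at this
    omega
  · have hu := upper_nonzero (by omega) hA h0 hne
    have hsub : (A ∩ -A).card ≤ A.card := card_le_card inter_subset_left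
    rcases Nat.lt_or_ge (A ∩ -A).card A.card with hlt | hge
    · omega
    · have := hu.2 (eq_of_subset_of_card_le inter_subset_left hge)
      omega

/-- The construction from odd residues. -/
theorem lower (h7 : 7 ≤ p) : ∃ A : Finset (ZMod p), A.card = p / 3 + 1 ∧ Free A := by
  have hp2 : p % 2 = 1 := by
    rcases hp.out.eq_two_or_odd with h | h
    · omega
    · exact h
  have hp3 : p % 3 ≠ 0 := by
    intro h
    have := (Nat.prime_dvd_prime_iff_eq Nat.prime_three hp.out).mp (Nat.dvd_of_mod_eq_zero h)
    omega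
  obtain ⟨q, r, hr, hpq⟩ : ∃ q r : ℕ, (r = 1 ∨ r = 5) ∧ p = 6 * q + r :=
    ⟨p / 6, p % 6, by omega, by omega⟩
  obtain ⟨w, hw⟩ : ∃ w : ℤ, w = if r = 1 then 2 * (q : ℤ) - 1 else 2 * q + 1 := ⟨_, rfl⟩
  obtain ⟨k, hk⟩ : ∃ k, k = p / 3 + 1 := ⟨_, rfl⟩
  have hwv : (r = 1 ∧ w = 2 * (q : ℤ) - 1 ∧ k = 2 * q + 1) ∨
      (r = 5 ∧ w = 2 * (q : ℤ) + 1 ∧ k = 2 * q + 2) := by
    rcases hr with rfl | rfl
    · left; exact ⟨rfl, by rw [hw, if_pos rfl], by omega⟩
    · right; exact ⟨rfl, by rw [hw, if_neg (by norm_num)], by omega⟩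
  have hsmall : ∀ t : ℤ, t % 2 = 1 → t < p → -(p : ℤ) < t → ((t : ℤ) : ZMod p) ≠ 0 := by
    intro t ht1 ht2 ht3 h
    rw [ZMod.intCast_zmod_eq_zero_iff_dvd] at h
    obtain ⟨m, hm⟩ := h
    have hm1 : m < 1 := by
      by_contra hcon
      have : (p : ℤ) * 1 ≤ p * m := mul_le_mul_of_nonneg_left (by omega) (by positivity)
      omega
    have hm2 : -1 < m := by
      by_contra hcon
      have : (p : ℤ) * m ≤ p * (-1) := mul_le_mul_of_nonneg_left (by omega) (by positivity)
      omega
    have : m = 0 := by omega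
    rw [this] at hm
    omega
  have hinj : ∀ i j : ℕ, i < k → j < k →
      (((2 * (i : ℤ) - w : ℤ)) : ZMod p) = ((2 * (j : ℤ) - w : ℤ) : ZMod p) → i = j := by
    intro i j hi hj h
    rw [ZMod.intCast_eq_intCast_iff_dvd_sub] at h
    obtain ⟨m, hm⟩ := h
    by_contra hne
    have hm1 : m < 1 := by
      by_contra hcon
      have : (p : ℤ) * 1 ≤ p * m := mul_le_mul_of_nonneg_left (by omega) (by positivity)
      omega
    have hm2 : -1 < m := by
      by_contra hcon
      have : (p : ℤ) * m ≤ p * (-1) := mul_le_mul_of_nonneg_left (by omega) (by positivity)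
      omega
    have : m = 0 := by omega
    rw [this] at hm
    omega
  refine ⟨(range k).image (fun i : ℕ => ((2 * (i : ℤ) - w : ℤ) : ZMod p)), ?_, ?_⟩
  · rw [card_image_of_injOn, card_range, hk]
    intro i hi j hj h
    rw [mem_coe, mem_range] at hi hj
    exact hinj i j hi hj h
  · intro a ha b hb c hc hab hac hbc
    rw [mem_image] at ha hb hc
    obtain ⟨i, hi, rfl⟩ := ha
    obtain ⟨j, hj, rfl⟩ := hb
    obtain ⟨l, hl, rfl⟩ := hc
    rw [mem_range] at hi hj hl
    have nij : i ≠ j := fun h => hab (by rw [h])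
    have nil : i ≠ l := fun h => hac (by rw [h])
    have njl : j ≠ l := fun h => hbc (by rw [h])
    constructor
    · rw [← Int.cast_add, ← Int.cast_add]
      apply hsmall
      · rcases hwv with ⟨-, hw1, -⟩ | ⟨-, hw1, -⟩ <;> omega
      · rcases hwv with ⟨h1, h2, h3⟩ | ⟨h1, h2, h3⟩ <;> omega
      · rcases hwv with ⟨h1, h2, h3⟩ | ⟨h1, h2, h3⟩ <;> omega
    · rw [Ne, ← sub_eq_zero, ← Int.cast_add, ← Int.cast_sub]
      apply hsmall
      · rcases hwv with ⟨-, hw1, -⟩ | ⟨-, hw1, -⟩ <;> omega
      · rcases hwv with ⟨h1, h2, h3⟩ | ⟨h1, h2, h3⟩ <;> omega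
      · rcases hwv with ⟨h1, h2, h3⟩ | ⟨h1, h2, h3⟩ <;> omega

end upper

theorem tau_eq {p : ℕ} [Fact p.Prime] {m : ℕ}
    (h1 : ∃ A : Finset (ZMod p), A.card = m ∧ Free A)
    (h2 : ∀ A : Finset (ZMod p), Free A → A.card ≤ m) : tauHat (ZMod p) 3 = m := by
  unfold tauHat
  simp only [free_iff]
  apply le_antisymm
  · apply csSup_le
    · obtain ⟨A, hA, hF⟩ := h1
      exact ⟨m, A, hA, hF⟩
    · rintro k ⟨A, rfl, hA⟩
      exact h2 A hA
  · apply le_csSup
    · refine ⟨m, ?_⟩
      rintro k ⟨A, rfl, hA⟩
      exact h2 A hA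
    · exact h1

theorem small2 : Free (univ : Finset (ZMod 2)) := by
  unfold Free
  decide

theorem small3a : Free ({0, 1} : Finset (ZMod 3)) := by
  unfold Free
  decide

theorem small3b : ∀ A : Finset (ZMod 3), (∀ a ∈ A, ∀ b ∈ A, ∀ c ∈ A, a ≠ b → a ≠ c → b ≠ c →
    a + b + c ≠ 0 ∧ a + b ≠ c) → A.card ≤ 2 := by decide

theorem small5a : Free ({0, 1, 2} : Finset (ZMod 5)) := by
  unfold Free
  decide

theorem small5b : ∀ A : Finset (ZMod 5), (∀ a ∈ A, ∀ b ∈ A, ∀ c ∈ A, a ≠ b → a ≠ c → b ≠ c →
    a + b + c ≠ 0 ∧ a + b ≠ c) → A.card ≤ 3 := by decide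

/-- `τ_±^(ℤ_p, 3)` is `2` for `p = 2, 3`, it is `3` for `p = 5`, and `⌊p/3⌋ + 1` for all primes
`p ≥ 7`. -/
theorem result (p : ℕ) (hp : p.Prime) :
    tauHat (ZMod p) 3 = if p ≤ 3 then 2 else if p = 5 then 3 else p / 3 + 1 := by
  have hf : Fact p.Prime := ⟨hp⟩
  by_cases h3 : p ≤ 3
  · rw [if_pos h3]
    have h2 := hp.two_le
    have : p = 2 ∨ p = 3 := by omega
    rcases this with rfl | rfl
    · apply tau_eq
      · exact ⟨univ, rfl, small2⟩
      · intro A _
        exact card_le_univ A
    · apply tau_eq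
      · exact ⟨{0, 1}, rfl, small3a⟩
      · exact small3b
  · rw [if_neg h3]
    by_cases h5 : p = 5
    · subst h5
      rw [if_pos rfl]
      apply tau_eq
      · exact ⟨{0, 1, 2}, rfl, small5a⟩
      · exact small5b
    · rw [if_neg h5]
      have h7 : 7 ≤ p := by
        by_contra hcon
        have : p = 4 ∨ p = 6 := by omega
        rcases this with rfl | rfl
        · exact absurd hp (by norm_num)
        · exact absurd hp (by norm_num)
      exact tau_eq (lower h7) (fun A hA => upper h7 hA)

end Pool.Agent.Results.MP_6ea067_co.PrimeValues
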